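import Pool.Agent.H41.Nik2

set_option autoImplicit false

open Pool.Agent.H41.Nik

theorem Pool.Agent.Results.MP_07734d_lc.Yes.result :
    ∃ F : Filter ℕ, (∀ A : Set ℕ, Aᶜ.Finite → A ∈ F) ∧ (∀ A : Set ℕ, A.Finite → A ∉ F) ∧
      @MeasurableSet _ (borel (ℕ → Bool)) (code F) ∧ ¬ IsFsd (code F) ∧ Nikodym (Alg F) := by
  refine ⟨FF, fun A hA => finite_mem hA, fun A hA h => univ_notMem ?_, ?_, not_fsd, nikodym_FF⟩
  · rw [← Set.union_compl_self A]
    exact JJ_uni _ (finite_mem hA) _ h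
  · rw [← BorelSpace.measurable_eq]
    exact borel_FF
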